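import Pool.Agent.MP_959362_pr.H69.Count

open MeasureTheory Pool.Agent.MP_959362_pr.H69

/-- In every large dimension the expected number of uncovered vertices of the random nearest
neighbour tree grows at least polynomially in `n`. -/
theorem Pool.Agent.Results.MP_959362_pr.Q1PolyGrowth.result :
    ∃ d₀ : ℕ, ∀ d : ℕ, d₀ ≤ d → ∃ c α : ℝ, 0 < c ∧ 0 < α ∧ ∀ n : ℕ, 1 ≤ n →
      c * (n : ℝ) ^ α ≤ ∫ x, (uncoveredCount n x : ℝ)
        ∂(Measure.infinitePi fun _ : ℕ => (volume : Measure (Torus d))) :=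
  poly_lower_bound
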