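import Pool.Agent.MP_959362_pr.H69.Count

open MeasureTheory Pool.Agent.MP_959362_pr.H69

/-- In every large dimension, for all constants `C, k`, the probability that the number of
uncovered vertices is at most `C (log n) ^ k` is below `1 - 1 / n` for all large `n`. -/
theorem Pool.Agent.Results.MP_959362_pr.Q2NotWhp.result :
    ∃ d₀ : ℕ, ∀ d : ℕ, d₀ ≤ d → ∀ C k : ℝ, ∃ N : ℕ, ∀ n : ℕ, N ≤ n →
      ((Measure.infinitePi fun _ : ℕ => (volume : Measure (Torus d)))
        {x | (uncoveredCount n x : ℝ) ≤ C * Real.log n ^ k}).toReal < 1 - 1 / (n : ℝ) :=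
  prob_bound
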